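import Pool.Agent.Helper95.Lin.GoalsH

/-! # Integration by parts -/

open Complex Metric Set Filter Topology MeasureTheory
open scoped ContDiff ComplexConjugate ComplexOrder

namespace Pool.Agent.Helper38.Lin

open Pool.Agent.Helper95.Lin

variable {n : ℕ} {M : Set (Cn n)}

theorem mul_test (hM : IsOpen M) {φ w : Cn n → ℝ} (hφ : TestF M φ) (hw : ContDiffOn ℝ ∞ w M) :
    TestF M (fun x => w x * φ x) := by
  have hsub : tsupport (fun x => w x * φ x) ⊆ tsupport φ := by
    apply closure_mono
    intro x hx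
    rw [Function.mem_support] at hx ⊢
    intro h
    exact hx (by rw [h, mul_zero])
  refine ⟨?_, ?_, hsub.trans hφ.2.2⟩
  · rw [contDiff_iff_contDiffAt]
    intro x
    by_cases hx : x ∈ M
    · exact ((hw.contDiffAt (hM.mem_nhds hx))).mul hφ.1.contDiffAt
    · have hx' : x ∉ tsupport φ := fun h => hx (hφ.2.2 h)
      have h0 : (fun x => w x * φ x) =ᶠ[𝓝 x] fun _ => 0 := by
        have := notMem_tsupport_iff_eventuallyEq.1 hx'
        filter_upwards [this] with y hy
        rw [hy, Pi.zero_apply, mul_zero]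
      exact contDiffAt_const.congr_of_eventuallyEq h0
  · exact HasCompactSupport.of_support_subset_isCompact hφ.2.1
      ((subset_tsupport _).trans hsub)

theorem sub_test {φ ψ : Cn n → ℝ} (hφ : TestF M φ) (hψ : TestF M ψ) :
    TestF M (fun x => φ x - ψ x) := by
  have hsub : tsupport (fun x => φ x - ψ x) ⊆ tsupport φ ∪ tsupport ψ := by
    refine closure_minimal ?_ ((isClosed_tsupport φ).union (isClosed_tsupport ψ))
    intro x hx
    rw [Function.mem_support] at hx
    by_contra h
    rw [mem_union, not_or] at h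
    exact hx (by rw [image_eq_zero_of_notMem_tsupport h.1, image_eq_zero_of_notMem_tsupport h.2,
      sub_zero])
  refine ⟨hφ.1.sub hψ.1, ?_, hsub.trans (union_subset hφ.2.2 hψ.2.2)⟩
  exact HasCompactSupport.of_support_subset_isCompact (hφ.2.1.isCompact.union hψ.2.1.isCompact)
      ((subset_tsupport _).trans hsub)

theorem dd_contDiffOn (hM : IsOpen M) {ψ : Cn n → ℝ} (hψ : ContDiffOn ℝ ∞ ψ M)
    (a : Fin n × Bool) : ContDiffOn ℝ ∞ (dd ψ a) M := by
  have h := hψ.fderiv_of_isOpen (m := ∞) hM (by simp)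
  exact h.clm_apply contDiffOn_const

theorem dd_test {φ : Cn n → ℝ} (hφ : TestF M φ) (a : Fin n × Bool) : TestF M (dd φ a) := by
  have hsub : tsupport (dd φ a) ⊆ tsupport φ := by
    refine (closure_mono ?_).trans (tsupport_fderiv_subset ℝ (f := φ))
    intro x hx
    rw [Function.mem_support] at hx ⊢
    intro h
    exact hx (by rw [dd, h, _root_.zero_apply])
  refine ⟨?_, ?_, hsub.trans hφ.2.2⟩
  · have h := hφ.1.fderiv_right (m := ∞) (by simp)
    exact h.clm_apply contDiff_const
  · exact HasCompactSupport.of_support_subset_isCompact hφ.2.1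
      ((subset_tsupport _).trans hsub)

theorem integrable_test {φ : Cn n → ℝ} (hφ : TestF M φ) : Integrable φ :=
  hφ.1.continuous.integrable_of_hasCompactSupport hφ.2.1

theorem integral_dd {φ : Cn n → ℝ} (hφ : TestF M φ) (a : Fin n × Bool) :
    ∫ x, dd φ a x = 0 := by
  have h := integral_mul_fderiv_eq_neg_fderiv_mul_of_integrable (μ := (volume : Measure (Cn n)))
    (f := fun _ => (1 : ℝ)) (g := φ) (v := rb a) (by simp)
    (by
      have := integrable_test (dd_test hφ a)
      simp only [one_mul]
      exact this) (by simpa using integrable_test hφ)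
    (fun x _ => differentiableAt_const _) (fun x _ => hφ.1.differentiable (by simp) x)
  simpa [dd] using h

theorem setIntegral_test {φ : Cn n → ℝ} (hφ : TestF M φ) : ∫ x in M, φ x = ∫ x, φ x := by
  apply setIntegral_eq_integral_of_forall_compl_eq_zero
  intro x hx
  exact image_eq_zero_of_notMem_tsupport fun h => hx (hφ.2.2 h)

theorem lop_contDiffOn (hM : IsOpen M) {P : Fin n × Bool → Fin n × Bool → Cn n → ℝ}
    (hP : ∀ a b, ContDiffOn ℝ ∞ (P a b) M) {ψ : Cn n → ℝ} (hψ : ContDiffOn ℝ ∞ ψ M) :
    ContDiffOn ℝ ∞ (Lop P ψ) M := by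
  unfold Lop
  refine ContDiffOn.sum fun a _ => ContDiffOn.sum fun b _ => ?_
  exact (hP a b).mul (dd_contDiffOn hM (dd_contDiffOn hM hψ b) a)

theorem dd_mul {f g : Cn n → ℝ} {x : Cn n} (hf : DifferentiableAt ℝ f x)
    (hg : DifferentiableAt ℝ g x) (a : Fin n × Bool) :
    dd (fun y => f y * g y) a x = f x * dd g a x + g x * dd f a x := by
  unfold dd
  have := fderiv_mul hf hg
  rw [show (fun y => f y * g y) = f * g from rfl, this]
  simp

theorem dd_sub {f g : Cn n → ℝ} {x : Cn n} (hf : DifferentiableAt ℝ f x)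
    (hg : DifferentiableAt ℝ g x) (a : Fin n × Bool) :
    dd (fun y => f y - g y) a x = dd f a x - dd g a x := by
  unfold dd
  have := fderiv_sub hf hg
  rw [show (fun y => f y - g y) = f - g from rfl, this]
  simp

theorem ibp : S_IBP := by
  intro n M P hM hP hsym hdiv φ ψ hφ hψ
  -- the vector field
  let G : Fin n × Bool → Fin n × Bool → Cn n → ℝ := fun a b x =>
    P a b x * (ψ x * dd φ b x - dd ψ b x * φ x)
  have hin : ∀ b, TestF M (fun x => ψ x * dd φ b x - dd ψ b x * φ x) := fun b =>
    sub_test (mul_test hM (dd_test hφ b) hψ) (mul_test hM hφ (dd_contDiffOn hM hψ b))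
  have hG : ∀ a b, TestF M (G a b) := fun a b => mul_test hM (hin b) (hP a b)
  have key : ∀ x ∈ M, ψ x * Lop P φ x = φ x * Lop P ψ x + ∑ a, ∑ b, dd (G a b) a x := by
    intro x hx
    have hxn := hM.mem_nhds hx
    have dφ : DifferentiableAt ℝ φ x := (hφ.1.differentiable (by simp)) x
    have dψ : DifferentiableAt ℝ ψ x := (hψ.contDiffAt hxn).differentiableAt (by simp)
    have ddφ : ∀ b, DifferentiableAt ℝ (dd φ b) x := fun b =>
      ((dd_test hφ b).1.differentiable (by simp)) x
    have ddψ : ∀ b, DifferentiableAt ℝ (dd ψ b) x := fun b =>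
      ((dd_contDiffOn hM hψ b).contDiffAt hxn).differentiableAt (by simp)
    have dP : ∀ a b, DifferentiableAt ℝ (P a b) x := fun a b =>
      ((hP a b).contDiffAt hxn).differentiableAt (by simp)
    have dG : ∀ a b, dd (G a b) a x =
        (ψ x * (P a b x * dd (dd φ b) a x) - φ x * (P a b x * dd (dd ψ b) a x)) +
        (ψ x * dd φ b x - dd ψ b x * φ x) * dd (P a b) a x +
        (P a b x * dd φ b x * dd ψ a x - P a b x * dd ψ b x * dd φ a x) := by
      intro a b
      have d1 : DifferentiableAt ℝ (fun x => ψ x * dd φ b x) x := dψ.mul (ddφ b)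
      have d2 : DifferentiableAt ℝ (fun x => dd ψ b x * φ x) x := (ddψ b).mul dφ
      have e1 := dd_mul (dP a b) (d1.sub d2) a
      have e2 := dd_sub d1 d2 a
      have e3 := dd_mul dψ (ddφ b) a
      have e4 := dd_mul (ddψ b) dφ a
      rw [e3, e4] at e2
      have e5 : dd (fun y => ψ y * dd φ b y - dd ψ b y * φ y) a x = _ := e2
      change dd (fun y => P a b y * (ψ y * dd φ b y - dd ψ b y * φ y)) a x = _
      have e6 : dd (fun y => P a b y * (ψ y * dd φ b y - dd ψ b y * φ y)) a x =
        P a b x * dd (fun y => ψ y * dd φ b y - dd ψ b y * φ y) a x +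
          (ψ x * dd φ b x - dd ψ b x * φ x) * dd (P a b) a x := e1
      rw [e6, e5]
      ring
    have s1 : ∑ a, ∑ b, (ψ x * dd φ b x - dd ψ b x * φ x) * dd (P a b) a x = 0 := by
      rw [Finset.sum_comm]
      refine Finset.sum_eq_zero fun b _ => ?_
      rw [← Finset.mul_sum, hdiv b x hx, mul_zero]
    have s2 : ∑ a, ∑ b, (P a b x * dd φ b x * dd ψ a x - P a b x * dd ψ b x * dd φ a x) = 0 := by
      simp only [Finset.sum_sub_distrib]
      rw [sub_eq_zero]
      conv_rhs => rw [Finset.sum_comm]
      refine Finset.sum_congr rfl fun a _ => Finset.sum_congr rfl fun b _ => ?_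
      rw [hsym b a x hx]
      ring
    have s3 : ∑ a, ∑ b, (ψ x * (P a b x * dd (dd φ b) a x) - φ x * (P a b x * dd (dd ψ b) a x)) =
        ψ x * Lop P φ x - φ x * Lop P ψ x := by
      unfold Lop
      simp only [Finset.sum_sub_distrib, Finset.mul_sum]
    simp only [dG, Finset.sum_add_distrib]
    rw [s1, s2, s3]
    ring
  have hint : TestF M (fun x => Lop P ψ x * φ x) := mul_test hM hφ (lop_contDiffOn hM hP hψ)
  have hint' : IntegrableOn (fun x => φ x * Lop P ψ x) M := by
    have := (integrable_test hint).integrableOn (s := M)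
    simpa only [mul_comm] using this
  rw [setIntegral_congr_fun hM.measurableSet (g := fun x => φ x * Lop P ψ x +
    ∑ a, ∑ b, dd (G a b) a x) key]
  have hi2 : ∀ a b, IntegrableOn (dd (G a b) a) M := fun a b =>
    (integrable_test (dd_test (hG a b) a)).integrableOn
  rw [integral_add hint' (integrable_finsetSum _ fun a _ => integrable_finsetSum _ fun b _ => hi2 a b)]
  rw [integral_finsetSum _ fun a _ => integrable_finsetSum _ fun b _ => hi2 a b]
  have : ∀ a, ∫ x in M, ∑ b, dd (G a b) a x = 0 := by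
    intro a
    rw [integral_finsetSum _ fun b _ => hi2 a b]
    refine Finset.sum_eq_zero fun b _ => ?_
    rw [setIntegral_test (dd_test (hG a b) a), integral_dd (hG a b) a]
  simp [this]

end Pool.Agent.Helper38.Lin
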