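import Pool.Agent.Helper95.Lin.GoalsH

/-! # The logarithm is pluriharmonic -/

open Complex Metric Set Filter Topology MeasureTheory
open scoped ContDiff ComplexConjugate ComplexOrder

namespace Pool.Agent.Helper38.Lin

open Pool.Agent.Helper95.Lin

theorem logh : S_MOLW → S_MOLC → S_LOGH := by
  intro hW hC n M hM F hF hF0 hdense hint hweak
  set u : Cn n → ℝ := fun x => Real.log (F x) with hu
  -- the local statement
  have loc : ∀ x₀ : Cn n, ∀ ε₀ > 0, closedBall x₀ (4 * ε₀) ⊆ M →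
      0 < F x₀ ∧ ∀ ε, 0 < ε → 2 * ε ≤ ε₀ → moll u ε x₀ = Real.log (F x₀) := by
    intro x₀ ε₀ hε₀ hball
    have hM'M : ball x₀ (3 * ε₀) ⊆ M := (ball_subset_closedBall.trans
      (closedBall_subset_closedBall (by linarith))).trans hball
    have hsub : ∀ x ∈ ball x₀ (3 * ε₀), closedBall x ε₀ ⊆ M := by
      intro x hx
      refine Subset.trans ?_ hball
      apply closedBall_subset_closedBall'
      rw [mem_ball] at hx
      linarith
    obtain ⟨h1, h2⟩ := hW M hM u hint hweak ε₀ hε₀ (ball x₀ (3 * ε₀)) hM'M isOpen_ball hsub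
    have hsub2 : ∀ x ∈ ball x₀ ε₀, closedBall x ε₀ ⊆ ball x₀ (3 * ε₀) := by
      intro x hx
      rw [mem_ball] at hx
      refine (closedBall_subset_closedBall' (ε₂ := 2 * ε₀) (y := x₀) (by linarith)).trans ?_
      exact closedBall_subset_ball (by linarith)
    have hb13 : ball x₀ ε₀ ⊆ ball x₀ (3 * ε₀) := ball_subset_ball (by linarith)
    have hb1M : ball x₀ ε₀ ⊆ M := hb13.trans hM'M
    set U : Cn n → ℝ := moll u (ε₀ / 2) with hU
    have hUc : ContinuousOn U (ball x₀ ε₀) := ((h1 (ε₀ / 2) (by linarith) (by linarith)).1).mono hb13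
    have hconst : ∀ x ∈ ball x₀ ε₀, ∀ ε, 0 < ε → 2 * ε ≤ ε₀ → moll u ε x = U x := by
      intro x hx ε he he'
      exact h2 ε (ε₀ / 2) he (by linarith) he' (by linarith) x (hb13 hx) (hsub2 x hx)
    have hpos : ∀ x ∈ ball x₀ ε₀, 0 < F x → F x = Real.exp (U x) := by
      intro x hx hFx
      have hc : ContinuousAt u x :=
        (hF.continuousAt (hM.mem_nhds (hb1M hx))).log hFx.ne'
      have ht := hC u x hc ⟨ε₀, hε₀, hint _ (hsub x (hb13 hx)) (isCompact_closedBall _ _)⟩
      have ht' : Tendsto (fun ε => moll u ε x) (𝓝[>] 0) (𝓝 (U x)) := by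
        refine tendsto_const_nhds.congr' ?_
        have : Ioc (0 : ℝ) (ε₀ / 2) ∈ 𝓝[>] (0 : ℝ) := Ioc_mem_nhdsGT (by linarith)
        filter_upwards [this] with ε he
        exact (hconst x hx ε he.1 (by linarith [he.2])).symm
      have := tendsto_nhds_unique ht ht'
      rw [← this, hu]
      simp only
      rw [Real.exp_log hFx]
    have hall : ∀ x ∈ ball x₀ ε₀, F x = Real.exp (U x) := by
      intro x hx
      by_contra hne
      have hopen : IsOpen (ball x₀ ε₀ ∩ (fun y => F y - Real.exp (U y)) ⁻¹' {0}ᶜ) := by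
        apply ContinuousOn.isOpen_inter_preimage _ isOpen_ball isOpen_compl_singleton
        exact (hF.mono hb1M).sub (Real.continuous_exp.comp_continuousOn hUc)
      obtain ⟨y, hy, hy0⟩ := hdense _ (inter_subset_left.trans hb1M) hopen
        ⟨x, hx, by
          rw [mem_preimage, mem_compl_iff, mem_singleton_iff]
          exact sub_ne_zero.2 hne⟩
      have := hpos y hy.1 hy0
      have h3 := hy.2
      rw [mem_preimage, mem_compl_iff, mem_singleton_iff] at h3
      exact h3 (sub_eq_zero.2 this)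
    have hx₀ : x₀ ∈ ball x₀ ε₀ := mem_ball_self hε₀
    refine ⟨by rw [hall x₀ hx₀]; exact Real.exp_pos _, ?_⟩
    intro ε he he'
    rw [hconst x₀ hx₀ ε he he', hall x₀ hx₀, Real.log_exp]
  refine ⟨?_, ?_⟩
  · intro x hx
    obtain ⟨ε, he, hsub⟩ := Metric.nhds_basis_closedBall.mem_iff.1 (hM.mem_nhds hx)
    exact (loc x (ε / 4) (by linarith) (by rwa [show 4 * (ε / 4) = ε by ring])).1
  · intro x hx e hdisc
    set Δ : Set (Cn n) := (fun ζ : ℂ => x + ζ • e) '' closedBall 0 1 with hΔ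
    have hΔc : IsCompact Δ := (isCompact_closedBall _ _).image (by fun_prop)
    have hΔM : Δ ⊆ M := by
      rintro _ ⟨ζ, hζ, rfl⟩
      exact hdisc ζ (by simpa using hζ)
    obtain ⟨δ, hδ, hδM⟩ := hΔc.exists_cthickening_subset_open hM hΔM
    set ε₀ : ℝ := δ / 5 with hε₀d
    have hε₀ : 0 < ε₀ := by positivity
    have h5 : ∀ p ∈ Δ, closedBall p (5 * ε₀) ⊆ M := by
      intro p hp
      have : 5 * ε₀ = δ := by rw [hε₀d]; ring
      rw [this]
      exact (closedBall_subset_cthickening hp δ).trans hδM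
    have hM'sub : ∀ y ∈ thickening ε₀ Δ, closedBall y ε₀ ⊆ M := by
      intro y hy
      obtain ⟨p, hp, hyp⟩ := mem_thickening_iff.1 hy
      refine (closedBall_subset_closedBall' ?_).trans (h5 p hp)
      linarith
    have hM'M : thickening ε₀ Δ ⊆ M := fun y hy => hM'sub y hy (mem_closedBall_self hε₀.le)
    obtain ⟨h1, -⟩ := hW M hM u hint hweak ε₀ hε₀ (thickening ε₀ Δ) hM'M isOpen_thickening hM'sub
    obtain ⟨-, hmean⟩ := h1 (ε₀ / 2) (by linarith) (by linarith)
    have hΔM' : Δ ⊆ thickening ε₀ Δ := self_subset_thickening hε₀ Δ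
    have hxΔ : x ∈ Δ := ⟨0, by simp, by simp⟩
    have heq : ∀ p ∈ Δ, moll u (ε₀ / 2) p = Real.log (F p) := by
      intro p hp
      exact (loc p ε₀ hε₀ ((closedBall_subset_closedBall (by linarith)).trans (h5 p hp))).2 _
        (by linarith) (by linarith)
    have h2 := hmean x (hΔM' hxΔ) e (fun ζ hζ => hΔM' ⟨ζ, by simpa using hζ, rfl⟩)
    rw [heq x hxΔ] at h2
    refine h2.trans ?_
    apply Real.circleAverage_congr_sphere
    intro ζ hζ
    simp only
    refine heq _ ⟨ζ, ?_, rfl⟩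
    rw [abs_one] at hζ
    exact sphere_subset_closedBall hζ

end Pool.Agent.Helper38.Lin
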